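import Pool.Agent.helper47.SC.Spec

open scoped Topology ContDiff
open Set Filter Metric MeasureTheory

namespace Pool.Agent.SC

theorem QAN (h1 : NSQ_stmt) (h2 : EPS_stmt) : QAN_stmt := by
  intro s m hm hs
  obtain ⟨_, hcont, _, _, _, hnn, _, _, _, _, _, hle⟩ := h1
  obtain ⟨hpos, _, _, _⟩ := h2 m hm
  have hfac : ∀ (i : ℕ) (w : C3), 0 ≤ (nsq (w - s i)) ^ (eps m i / 2) := fun i w =>
    Real.rpow_nonneg (hnn _) _
  have hprod : ∀ (k : ℕ) (w : C3), 0 ≤ ∏ i ∈ Finset.range k, (nsq (w - s i)) ^ (eps m i / 2) :=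
    fun k w => Finset.prod_nonneg fun i _ => hfac i w
  refine ⟨?_, ?_, ?_⟩
  · intro k q hq
    unfold QQ
    rw [Finset.prod_range_succ]
    have hf1 : (nsq (q.2 - s k)) ^ (eps m k / 2) ≤ 1 :=
      Real.rpow_le_one (hnn _) (hle q.2 (s k) hq (hs k)) (by linarith [hpos k])
    have h3 : (∏ i ∈ Finset.range k, (nsq (q.2 - s i)) ^ (eps m i / 2)) *
        (nsq (q.2 - s k)) ^ (eps m k / 2) ≤
        ∏ i ∈ Finset.range k, (nsq (q.2 - s i)) ^ (eps m i / 2) := by
      have := mul_le_mul_of_nonneg_left hf1 (hprod k q.2)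
      simpa using this
    exact mul_le_mul_of_nonneg_right (mul_le_mul_of_nonneg_left h3 (Real.sqrt_nonneg _))
      (Real.exp_pos _).le
  · intro k
    unfold QQ
    refine Continuous.mul (Continuous.mul ?_ ?_) ?_
    · exact Real.continuous_sqrt.comp (by fun_prop)
    · refine continuous_finsetProd _ fun i _ => ?_
      have h4 : Continuous fun q : C4 => nsq (q.2 - s i) := hcont.comp (by fun_prop)
      exact h4.rpow_const fun q => Or.inr (by linarith [hpos i])
    · exact Real.continuous_exp.comp (continuous_const.mul (hcont.comp continuous_snd))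
  · intro k q
    unfold QQ
    exact mul_nonneg (mul_nonneg (Real.sqrt_nonneg _) (hprod k q.2)) (Real.exp_pos _).le

end Pool.Agent.SC
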